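import Pool.Agent.H23.AF.Targets

/-!
Module WE of the board af_modules (MP_7ecdd4_nt): comparison of `w5` with `ell`.
-/

set_option autoImplicit false

namespace Pool.Agent.H48.AF

open Pool.Agent.H23.AF Pool.Agent.H38.AE

theorem term1 {Q R : ℝ} (hQ : 0 < Q) (hR : 0 < R) :
    Real.exp (Real.log R - Real.log Q) = R / Q := by
  rw [Real.exp_sub, Real.exp_log hR, Real.exp_log hQ]

theorem term2 {Q R : ℝ} (hQ : 0 < Q) (hR : 0 < R) :
    Real.exp ((4 * Real.log R - 3 * Real.log Q) / 5) =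
      R ^ ((4 : ℝ) / 5) / Q ^ ((3 : ℝ) / 5) := by
  rw [Real.rpow_def_of_pos hR, Real.rpow_def_of_pos hQ, ← Real.exp_sub]
  congr 1
  ring

theorem term3 {Q R : ℝ} (hQ : 0 < Q) (hR : 0 < R) :
    Real.exp ((2 * Real.log R - Real.log Q) / 5) = (R ^ 2 / Q) ^ ((1 : ℝ) / 5) := by
  rw [Real.rpow_def_of_pos (by positivity), Real.log_div (by positivity) (by positivity),
    Real.log_pow]
  congr 1
  push_cast
  ring

theorem exp_ell {Q R : ℝ} (hQ : 0 < Q) (hR : 0 < R) :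
    Real.exp (ell (Real.log R) (Real.log Q)) =
      max (max 1 (R / Q)) (max (R ^ ((4 : ℝ) / 5) / Q ^ ((3 : ℝ) / 5))
        ((R ^ 2 / Q) ^ ((1 : ℝ) / 5))) := by
  unfold ell
  rw [Real.exp_monotone.map_max, Real.exp_monotone.map_max, Real.exp_monotone.map_max,
    Real.exp_zero, term1 hQ hR, term2 hQ hR, term3 hQ hR]

/-- Module WE. -/
theorem pf_WE : T_WE := by
  refine ⟨?_, ?_, ?_, ?_⟩
  · intro Q R hQ hR
    have hQ0 : 0 < Q := by linarith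
    have hR0 : 0 < R := by linarith
    rw [exp_ell hQ0 hR0]
    unfold w5
    have h1 : 0 < R / Q := by positivity
    have h2 : 0 < R ^ ((4 : ℝ) / 5) / Q ^ ((3 : ℝ) / 5) := by positivity
    have h3 : 0 < (R ^ 2 / Q) ^ ((1 : ℝ) / 5) := by positivity
    constructor
    · apply mul_le_mul_of_nonneg_left _ hR0.le
      refine max_le (max_le ?_ ?_) (max_le ?_ ?_) <;> linarith
    · have h4 : 4 * (R * max (max 1 (R / Q)) (max (R ^ ((4 : ℝ) / 5) / Q ^ ((3 : ℝ) / 5))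
          ((R ^ 2 / Q) ^ ((1 : ℝ) / 5)))) = R * (4 * max (max 1 (R / Q))
          (max (R ^ ((4 : ℝ) / 5) / Q ^ ((3 : ℝ) / 5)) ((R ^ 2 / Q) ^ ((1 : ℝ) / 5)))) := by ring
      rw [h4]
      apply mul_le_mul_of_nonneg_left _ hR0.le
      have m1 : (1 : ℝ) ≤ max (max 1 (R / Q)) (max (R ^ ((4 : ℝ) / 5) / Q ^ ((3 : ℝ) / 5))
          ((R ^ 2 / Q) ^ ((1 : ℝ) / 5))) := le_trans (le_max_left _ _) (le_max_left _ _)
      have m2 : R / Q ≤ max (max 1 (R / Q)) (max (R ^ ((4 : ℝ) / 5) / Q ^ ((3 : ℝ) / 5))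
          ((R ^ 2 / Q) ^ ((1 : ℝ) / 5))) := le_trans (le_max_right _ _) (le_max_left _ _)
      have m3 : R ^ ((4 : ℝ) / 5) / Q ^ ((3 : ℝ) / 5) ≤ max (max 1 (R / Q))
          (max (R ^ ((4 : ℝ) / 5) / Q ^ ((3 : ℝ) / 5))
          ((R ^ 2 / Q) ^ ((1 : ℝ) / 5))) := le_trans (le_max_left _ _) (le_max_right _ _)
      have m4 : (R ^ 2 / Q) ^ ((1 : ℝ) / 5) ≤ max (max 1 (R / Q))
          (max (R ^ ((4 : ℝ) / 5) / Q ^ ((3 : ℝ) / 5))
          ((R ^ 2 / Q) ^ ((1 : ℝ) / 5))) := le_trans (le_max_right _ _) (le_max_right _ _)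
      linarith
  · intro Q R R' hQ hR hRR
    have hQ0 : 0 < Q := by linarith
    have hR0 : 0 < R := by linarith
    have hR0' : 0 ≤ R' := by linarith
    unfold w5
    gcongr
  · intro Q Q' R hQ hR hQQ
    have hQ0 : 0 < Q := by linarith
    have hQ0' : 0 < Q' := by linarith
    have hR0 : 0 < R := by linarith
    unfold w5
    gcongr
  · intro Q R hQ hR
    have hQ0 : 0 < Q := by linarith
    have hR0 : 0 < R := by linarith
    unfold w5
    have h2 : 2 * (R * (1 + R / (2 * Q) + R ^ ((4 : ℝ) / 5) / (2 * Q) ^ ((3 : ℝ) / 5) +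
        (R ^ 2 / (2 * Q)) ^ ((1 : ℝ) / 5))) = R * (2 + 2 * (R / (2 * Q)) +
        2 * (R ^ ((4 : ℝ) / 5) / (2 * Q) ^ ((3 : ℝ) / 5)) +
        2 * (R ^ 2 / (2 * Q)) ^ ((1 : ℝ) / 5)) := by ring
    rw [h2]
    apply mul_le_mul_of_nonneg_left _ hR0.le
    have i1 : R / Q = 2 * (R / (2 * Q)) := by field_simp
    have hle : ∀ a : ℝ, 0 ≤ a → a ≤ 1 → (2 : ℝ) ^ a ≤ 2 := by
      intro a ha ha1
      calc (2 : ℝ) ^ a ≤ (2 : ℝ) ^ (1 : ℝ) := Real.rpow_le_rpow_of_exponent_le (by norm_num) ha1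
        _ = 2 := Real.rpow_one 2
    have i2 : R ^ ((4 : ℝ) / 5) / Q ^ ((3 : ℝ) / 5) ≤
        2 * (R ^ ((4 : ℝ) / 5) / (2 * Q) ^ ((3 : ℝ) / 5)) := by
      rw [Real.mul_rpow (by norm_num) hQ0.le]
      have e : R ^ ((4 : ℝ) / 5) / Q ^ ((3 : ℝ) / 5) = (2 : ℝ) ^ ((3 : ℝ) / 5) *
          (R ^ ((4 : ℝ) / 5) / ((2 : ℝ) ^ ((3 : ℝ) / 5) * Q ^ ((3 : ℝ) / 5))) := by
        field_simp
      rw [e]
      apply mul_le_mul_of_nonneg_right (hle _ (by norm_num) (by norm_num))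
      positivity
    have i3 : (R ^ 2 / Q) ^ ((1 : ℝ) / 5) ≤ 2 * (R ^ 2 / (2 * Q)) ^ ((1 : ℝ) / 5) := by
      have e : R ^ 2 / Q = 2 * (R ^ 2 / (2 * Q)) := by field_simp
      rw [e, Real.mul_rpow (by norm_num) (by positivity)]
      apply mul_le_mul_of_nonneg_right (hle _ (by norm_num) (by norm_num))
      positivity
    linarith

end Pool.Agent.H48.AF
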